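import Pool.Agent.TWC.StD

/-!
# TMW: full twists along many arcs, words and spaces of colourings

The arcs lie on one line above the word `u`: arc `i` is the segment from the gap `a i` to the gap `a i + w i`. `sh a y`: the word `y`
acts on the strands `a, a + 1, ...`. The regions of parity `ρ` of `u ++ v` have the parity `fl a ρ` in the numbering which starts at
the gap `a`. `Loc`, `bo`, `tp`, `pa`, `R0`, `gs`, `ed`, `jo`, `NoX`, `runC` are from `ALT/Mo/Defs.lean`; `gam`, `wd`, `Lv`, `Lk`, `gm`, `fr`, `Ph`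
from `TWC`.
-/

set_option autoImplicit false

namespace Pool.TMW

open LaurentPolynomial Pool.Agent.ARB Pool.Agent.Helper2 Pool.ALT Pool.TWC

/-! ### circles and weights -/

/-- the closed word `W` (crossings are ignored) is `c` circles in every model -/
def Ci (W : Word) (c : ℕ) : Prop :=
  ∀ {R V : Type} [CommRing R] [AddCommGroup V] [Module R V] (M : Model R V),
    runC M W M.init = M.δ ^ c • M.init

open Classical in
/-- the number of circles -/
noncomputable def cn (W : Word) : ℕ := if h : ∃ c, Ci W c then h.choose else 0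

/-- the exponent of the state `B` in the expansion of the crossings of a word; `crossOp M i p = T c • id + T (-c) • cup_i cap_i`,
`c = 1` for `p = true`, `c = -1` for `p = false` -/
def wt : (ℕ → Bool) → Word → ℤ
  | _, [] => 0
  | B, ⟨.X p, i⟩ :: w =>
      (if (B 0 = decide (i % 2 = 0)) ↔ p = true then -1 else 1) + wt (fun k => B (k + 1)) w
  | B, ⟨.U, _⟩ :: w => wt B w
  | B, ⟨.N, _⟩ :: w => wt B w

/-- the planar word of the state `C` of the full twist -/
def yw (w : ℕ) (k : ℤ) (C : Finset (Fin (nX (FT w k)))) : Word := jo (st true C) (FT w k)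

/-- its coefficient in the normalized full twist -/
noncomputable def xw (w : ℕ) (k : ℤ) (C : Finset (Fin (nX (FT w k)))) : LP :=
  T (3 * k * w + wt (st true C) (FT w k))

/-! ### arcs -/

/-- disjoint arcs, from left to right, on a line with `n` strands -/
def AOk {g : ℕ} (n : ℕ) (a w : Fin g → ℕ) : Prop :=
  (∀ i, a i + w i ≤ n) ∧ ∀ i j, i < j → a i + w i ≤ a j

/-- the gap `j` is strictly inside of an arc -/
def Ins {g : ℕ} (a w : Fin g → ℕ) (j : ℕ) : Prop := ∃ i, a i < j ∧ j < a i + w i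

/-- the words `y i` at the arcs -/
def Yw {g : ℕ} (a : Fin g → ℕ) (y : Fin g → Word) : Word := (List.ofFn fun i => sh (a i) (y i)).flatten

/-- the value of the state `B` with the normalized full twists at the arcs -/
noncomputable def Va {g : ℕ} (B : ℕ → Bool) (u v : Word) (a w : Fin g → ℕ) (k : Fin g → ℤ) : LP :=
  ∑ C : (i : Fin g) → Finset (Fin (nX (FT (w i) (k i)))),
    (∏ i, xw (w i) (k i) (C i)) *
      loopVal ^ cn (jo B u ++ Yw a (fun i => yw (w i) (k i) (C i)) ++ jo (fun k => B (k + nX u)) v)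

/-! ### colours -/

/-- the parity in the numbering which starts at the gap `a` -/
def fl (a : ℕ) (ρ : Bool) : Bool := if a % 2 = 0 then ρ else !ρ

/-- rows of colours of the `w + 1` gaps of an arc -/
abbrev Rw (w : ℕ) : Type := Fin (w + 1) → ZMod 3

/-- colourings of the regions of parity `ρ` of a word without crossings on `n` strands -/
def Czs (ρ : Bool) (n : ℕ) (y : Word) : Submodule (ZMod 3) (Loc n y → ZMod 3) where
  carrier := {h | (∀ x, pa n y x ≠ ρ → h x = 0) ∧ ∀ x x', R0 n y x x' → h x = h x'}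
  add_mem' := by
    rintro p q ⟨a1, a2⟩ ⟨b1, b2⟩
    refine ⟨fun x hx => ?_, fun x y h => ?_⟩
    · show p x + q x = 0
      rw [a1 x hx, b1 x hx, add_zero]
    · show p x + q x = p y + q y
      rw [a2 x y h, b2 x y h]
  zero_mem' := ⟨fun _ _ => rfl, fun _ _ _ => rfl⟩
  smul_mem' := by
    rintro c p ⟨a1, a2⟩
    refine ⟨fun x hx => ?_, fun x y h => ?_⟩
    · show c * p x = 0
      rw [a1 x hx, mul_zero]
    · show c * p x = c * p y
      rw [a2 x y h]

/-- the rows below and above a word on `n` strands with `m` strands above it -/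
def rows (n m : ℕ) (y : Word) : (Loc n y → ZMod 3) →ₗ[ZMod 3] Rw n × Rw m where
  toFun h := (fun j => h (bo n y (j : ℕ)), fun j => h (tp n y (j : ℕ)))
  map_add' _ _ := rfl
  map_smul' _ _ := rfl

/-- the relation of a word without crossings from `w` to `w` strands: (row below, row above) -/
def Rel (ρ : Bool) (w : ℕ) (y : Word) : Submodule (ZMod 3) (Rw w × Rw w) :=
  (Czs ρ w y).map (rows w w y)

/-- the dimension of the space of the colourings which vanish below and above -/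
noncomputable def krn (ρ : Bool) (w : ℕ) (y : Word) : ℕ :=
  Module.finrank (ZMod 3) (Czs ρ w y ⊓ LinearMap.ker (rows w w y) : Submodule (ZMod 3) (Loc w y → ZMod 3))

/-- the exponent of `√3` of a word without crossings, the closed regions included -/
noncomputable def gk (ρ : Bool) (w : ℕ) (y : Word) : ℤ := gam ρ (fun _ => ρ) y + 2 * (krn ρ w y : ℤ)

/-- the exponent of `√3` of the state `B` of the closed word `u ++ v` without the free regions -/
def bas (ρ : Bool) (B : ℕ → Bool) (u v : Word) : ℤ := gam ρ B (u ++ v) - (if ρ = true then 2 else 0)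

/-- the rows below and above the arc from the gap `a` to the gap `a + w` -/
def res (u v : Word) (a w : ℕ) : Lv u v →ₗ[ZMod 3] Rw w × Rw w where
  toFun p := (fun j => p.1 (tp 0 u (a + (j : ℕ))), fun j => p.2 (bo (wd 0 u) v (a + (j : ℕ))))
  map_add' _ _ := rfl
  map_smul' _ _ := rfl

/-- colourings of the regions of parity `ρ` of the state `B`, cut along the arcs -/
def Out {g : ℕ} (ρ : Bool) (B : ℕ → Bool) (u v : Word) (a w : Fin g → ℕ) :
    Submodule (ZMod 3) (Lv u v) where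
  carrier := {p | ((∀ x, pa 0 u x ≠ ρ → p.1 x = 0) ∧ (∀ x, pa (wd 0 u) v x ≠ ρ → p.2 x = 0)) ∧
    ((∀ x y, R0 0 u x y → p.1 x = p.1 y) ∧ (∀ x y, R0 (wd 0 u) v x y → p.2 x = p.2 y)) ∧
    (∀ j ≤ wd 0 u, ¬ Ins a w j → p.2 (bo (wd 0 u) v j) = p.1 (tp 0 u j)) ∧
    ∀ k : ℕ, B k = ρ → Lk ρ u v k p = 0}
  add_mem' := by
    rintro p q ⟨⟨a1, a2⟩, ⟨a3, a4⟩, a5, a6⟩ ⟨⟨b1, b2⟩, ⟨b3, b4⟩, b5, b6⟩
    refine ⟨⟨fun x hx => ?_, fun x hx => ?_⟩, ⟨fun x y h => ?_, fun x y h => ?_⟩, fun j hj hj' => ?_,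
      fun k hk => ?_⟩
    · show p.1 x + q.1 x = 0
      rw [a1 x hx, b1 x hx, add_zero]
    · show p.2 x + q.2 x = 0
      rw [a2 x hx, b2 x hx, add_zero]
    · show p.1 x + q.1 x = p.1 y + q.1 y
      rw [a3 x y h, b3 x y h]
    · show p.2 x + q.2 x = p.2 y + q.2 y
      rw [a4 x y h, b4 x y h]
    · show p.2 _ + q.2 _ = p.1 _ + q.1 _
      rw [a5 j hj hj', b5 j hj hj']
    · rw [map_add, a6 k hk, b6 k hk, add_zero]
  zero_mem' := by
    refine ⟨⟨fun x _ => rfl, fun x _ => rfl⟩, ⟨fun x y _ => rfl, fun x y _ => rfl⟩, fun j _ _ => rfl,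
      fun k _ => map_zero _⟩
  smul_mem' := by
    rintro c p ⟨⟨a1, a2⟩, ⟨a3, a4⟩, a5, a6⟩
    refine ⟨⟨fun x hx => ?_, fun x hx => ?_⟩, ⟨fun x y h => ?_, fun x y h => ?_⟩, fun j hj hj' => ?_,
      fun k hk => ?_⟩
    · show c * p.1 x = 0
      rw [a1 x hx, mul_zero]
    · show c * p.2 x = 0
      rw [a2 x hx, mul_zero]
    · show c * p.1 x = c * p.1 y
      rw [a3 x y h]
    · show c * p.2 x = c * p.2 y
      rw [a4 x y h]
    · show c * p.2 _ = c * p.1 _
      rw [a5 j hj hj']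
    · rw [map_smul, a6 k hk, smul_zero]

/-- the same for one arc from the gap `a` to the gap `a + w` -/
abbrev Out1 (ρ : Bool) (B : ℕ → Bool) (u v : Word) (a w : ℕ) : Submodule (ZMod 3) (Lv u v) :=
  Out ρ B u v (fun _ : Fin 1 => a) (fun _ : Fin 1 => w)

/-- the boundary condition of the monodromy `s`, zero at the two ends (`ρ`: local parity) -/
def Rs (ρ : Bool) (s : ZMod 3) (w : ℕ) : Submodule (ZMod 3) (Rw w × Rw w) where
  carrier := {q | (∀ j : Fin (w + 1), decide ((j : ℕ) % 2 = 0) ≠ ρ → q.1 j = 0) ∧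
    (∀ j : Fin (w + 1), q.2 j = (if 0 < (j : ℕ) ∧ (j : ℕ) < w then s else 1) * q.1 j) ∧
    q.1 0 = 0 ∧ q.1 (Fin.last w) = 0}
  add_mem' := by
    rintro p q ⟨a1, a2, a3, a4⟩ ⟨b1, b2, b3, b4⟩
    refine ⟨fun j hj => ?_, fun j => ?_, ?_, ?_⟩
    · show p.1 j + q.1 j = 0
      rw [a1 j hj, b1 j hj, add_zero]
    · show p.2 j + q.2 j = _ * (p.1 j + q.1 j)
      rw [a2 j, b2 j, mul_add]
    · show p.1 0 + q.1 0 = 0
      rw [a3, b3, add_zero]
    · show p.1 _ + q.1 _ = 0
      rw [a4, b4, add_zero]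
  zero_mem' := by
    refine ⟨fun _ _ => rfl, fun j => ?_, rfl, rfl⟩
    show (0 : ZMod 3) = _ * 0
    rw [mul_zero]
  smul_mem' := by
    rintro c p ⟨a1, a2, a3, a4⟩
    refine ⟨fun j hj => ?_, fun j => ?_, ?_, ?_⟩
    · show c * p.1 j = 0
      rw [a1 j hj, mul_zero]
    · show c * p.2 j = _ * (c * p.1 j)
      rw [a2 j]
      ring
    · show c * p.1 0 = 0
      rw [a3, mul_zero]
    · show c * p.1 _ = 0
      rw [a4, mul_zero]

/-- the boundary condition: no monodromy, the two ends have the same colour if both have the parity `ρ` -/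
def Rp (ρ : Bool) (w : ℕ) : Submodule (ZMod 3) (Rw w × Rw w) where
  carrier := {q | (∀ j : Fin (w + 1), decide ((j : ℕ) % 2 = 0) ≠ ρ → q.1 j = 0) ∧
    q.2 = q.1 ∧ (ρ = true → w % 2 = 0 → q.1 0 = q.1 (Fin.last w))}
  add_mem' := by
    rintro p q ⟨a1, a2, a3⟩ ⟨b1, b2, b3⟩
    refine ⟨fun j hj => ?_, ?_, fun h h' => ?_⟩
    · show p.1 j + q.1 j = 0
      rw [a1 j hj, b1 j hj, add_zero]
    · show p.2 + q.2 = p.1 + q.1
      rw [a2, b2]
    · show p.1 0 + q.1 0 = p.1 _ + q.1 _
      rw [a3 h h', b3 h h']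
  zero_mem' := ⟨fun _ _ => rfl, rfl, fun _ _ => rfl⟩
  smul_mem' := by
    rintro c p ⟨a1, a2, a3⟩
    refine ⟨fun j hj => ?_, ?_, fun h h' => ?_⟩
    · show c * p.1 j = 0
      rw [a1 j hj, mul_zero]
    · show c • p.2 = c • p.1
      rw [a2]
    · show c * p.1 0 = c * p.1 _
      rw [a3 h h']

/-! ### rotation -/

/-- the first strand above `x` (for `x` from `0` to `n` strands) or below `x` (for `x` from `n` to `0` strands) is moved around to the
right -/
def Wr (x : Word) : Word := pU 0 :: (sh 1 x ++ [pN 0])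

/-- a map from the local regions of `w` to those of the rotated word `W`, bijective on the classes of `gs` -/
structure Rmap (n : ℕ) (w : Word) (N : ℕ) (W : Word) (φ : Loc n w → Loc N W) : Prop where
  nx : nX W = nX w
  tch : ∀ x y, R0 n w x y → gs N W (φ x) (φ y)
  ext : ∀ (α : Type) (f : Loc n w → α), (∀ x y, R0 n w x y → f x = f y) →
    ∃ F : Loc N W → α, (∀ x y, R0 N W x y → F x = F y) ∧ ∀ x, F (φ x) = f x
  sur : ∀ X, ∃ x, gs N W X (φ x)
  par : ∀ x, pa N W (φ x) = !pa n w x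
  edg : ∀ (ρ : Bool) (k : ℕ) (h : k < nX w) (h' : k < nX W),
    gs N W (φ (ed ρ n w ⟨k, h⟩).1) (ed (!ρ) N W ⟨k, h'⟩).1 ∧
    gs N W (φ (ed ρ n w ⟨k, h⟩).2) (ed (!ρ) N W ⟨k, h'⟩).2
  ad1 : ∀ x y, Ad n w x y → ∃ X Y, gs N W (φ x) X ∧ gs N W (φ y) Y ∧ Ad N W X Y
  ad2 : ∀ X Y, Ad N W X Y → ∃ x y, gs N W X (φ x) ∧ gs N W Y (φ y) ∧ Ad n w x y

/-- the bound for the degree of the value of a full twist around `m` circles, `m ≡ w` mod 2 -/
def dP (w : ℕ) (k τ : ℤ) : ℤ := if w % 2 = 0 then 0 else 2 + 3 * (τ * k)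

/-- the two ends of the arc from the gap `a` to the gap `a + w` are far apart -/
def FarA (u v : Word) (a w : ℕ) : Prop := ∀ j ≤ 2, ¬ Arc (u ++ v) j (u.length, a) (u.length, a + w)

end Pool.TMW
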