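import Pool.Agent.TWC.StL

/-!
# TMW: counting the classes of a relation which refines the parallel classes (LNR)
-/

set_option autoImplicit false

namespace Pool.TMW

open Pool.TWC

open Classical in
/-- [LNR] counting the classes of an equivalence relation finer than parallelism (compare `TWC.St_LIN`). -/
def St_LNR : Prop := ∀ (N : ℕ) (r r' : Finset (Fin N) → ℕ), RkF r → RkF r' →
  (∀ e, r {e} = 1) → (∀ e, r' {e} = 1) → (∀ e e', r' {e, e'} ≤ r {e, e'}) →
  ∀ E : Fin N → Fin N → Prop, Equivalence E → (∀ e e', E e e' → r {e, e'} = 1) →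
  ∀ S : Finset (Fin N),
    (∑ T ∈ Finset.univ.filter (fun T : Finset (Fin N) => T.Nonempty ∧ ∀ e ∈ T, ∀ e' ∈ T, E e e'),
      (-1 : ℤ) ^ T.card) + r S + r' Finset.univ ≤ r' S

open Classical in
/-- the class of `e` -/
noncomputable def LNR_cl {N : ℕ} (E : Fin N → Fin N → Prop) (e : Fin N) : Finset (Fin N) :=
  Finset.univ.filter fun e' => E e e'

private theorem LNR_add {N : ℕ} {r : Finset (Fin N) → ℕ} (hr : RkF r) (h1 : ∀ e, r {e} = 1)
    {S : Finset (Fin N)} {e e' : Fin N} (he' : e' ∈ S) (h : r {e, e'} ≤ 1) :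
    r (insert e S) ≤ r S := by
  have h2 := hr.sub S {e, e'}
  have h3 : S ∪ {e, e'} = insert e S := by
    ext x
    simp only [Finset.mem_union, Finset.mem_insert, Finset.mem_singleton]
    constructor
    · rintro (h | h | h)
      · exact Or.inr h
      · exact Or.inl h
      · exact Or.inr (h ▸ he')
    · rintro (h | h)
      · exact Or.inr (Or.inl h)
      · exact Or.inl h
  have h4 : 1 ≤ r (S ∩ {e, e'}) := by
    have := hr.mono {e'} (S ∩ {e, e'}) (Finset.singleton_subset_iff.2 (by simp [he']))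
    rw [h1] at this
    exact this
  rw [h3] at h2
  omega

private theorem LNR_cl_eq {N : ℕ} {E : Fin N → Fin N → Prop} (hE : Equivalence E) {e e' : Fin N} :
    LNR_cl E e = LNR_cl E e' ↔ E e e' := by
  constructor
  · intro h
    have h2 : e' ∈ LNR_cl E e' := by
      simp [LNR_cl, hE.refl]
    rw [← h] at h2
    simpa [LNR_cl] using h2
  · intro h
    ext x
    simp only [LNR_cl, Finset.mem_filter, Finset.mem_univ, true_and]
    exact ⟨fun hx => hE.trans (hE.symm h) hx, fun hx => hE.trans h hx⟩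

private theorem LNR_A {N : ℕ} {E : Fin N → Fin N → Prop} (hE : Equivalence E)
    {r : Finset (Fin N) → ℕ} (hr : RkF r) (h1 : ∀ e, r {e} = 1)
    (hp : ∀ e e', E e e' → r {e, e'} ≤ 1) (S U : Finset (Fin N)) :
    r (S ∪ U) + (S.image (LNR_cl E)).card ≤ r S + ((S ∪ U).image (LNR_cl E)).card := by
  induction U using Finset.induction_on with
  | empty => simp
  | insert e U _ ih =>
    have h3 : S ∪ insert e U = insert e (S ∪ U) := by
      rw [Finset.union_insert]
    rw [h3, Finset.image_insert]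
    by_cases h : LNR_cl E e ∈ (S ∪ U).image (LNR_cl E)
    · rw [Finset.insert_eq_of_mem h]
      obtain ⟨e', he', h4⟩ := Finset.mem_image.1 h
      have h6 := LNR_add hr h1 he' (hp e e' ((LNR_cl_eq hE).1 h4.symm))
      omega
    · rw [Finset.card_insert_of_notMem h]
      have h6 := hr.one (S ∪ U) e
      omega

open Classical in
private theorem LNR_C {N : ℕ} {E : Fin N → Fin N → Prop} (hE : Equivalence E) :
    (∑ T ∈ Finset.univ.filter (fun T : Finset (Fin N) => T.Nonempty ∧ ∀ e ∈ T, ∀ e' ∈ T, E e e'),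
      (-1 : ℤ) ^ T.card) = -(((Finset.univ : Finset (Fin N)).image (LNR_cl E)).card : ℤ) := by
  have h2 : Finset.univ.filter (fun T : Finset (Fin N) => T.Nonempty ∧ ∀ e ∈ T, ∀ e' ∈ T, E e e') =
      ((Finset.univ : Finset (Fin N)).image (LNR_cl E)).biUnion
        (fun q => (Finset.univ.filter fun e => LNR_cl E e = q).powerset.erase ∅) := by
    ext T
    rw [Finset.mem_filter, Finset.mem_biUnion]
    constructor
    · rintro ⟨-, ⟨e, he⟩, h⟩
      refine ⟨LNR_cl E e, Finset.mem_image_of_mem _ (Finset.mem_univ _), ?_⟩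
      rw [Finset.mem_erase, Finset.mem_powerset]
      refine ⟨Finset.nonempty_iff_ne_empty.1 ⟨e, he⟩, fun e' he' => ?_⟩
      rw [Finset.mem_filter]
      exact ⟨Finset.mem_univ _, (LNR_cl_eq hE).2 (h e' he' e he)⟩
    · rintro ⟨q, _, hT⟩
      rw [Finset.mem_erase, Finset.mem_powerset] at hT
      refine ⟨Finset.mem_univ _, Finset.nonempty_iff_ne_empty.2 hT.1, fun e he e' he' => ?_⟩
      have h3 := hT.2 he
      have h4 := hT.2 he'
      rw [Finset.mem_filter] at h3 h4
      exact (LNR_cl_eq hE).1 (h3.2.trans h4.2.symm)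
  rw [h2, Finset.sum_biUnion]
  · have h3 : ∀ q ∈ (Finset.univ : Finset (Fin N)).image (LNR_cl E),
        ∑ T ∈ (Finset.univ.filter fun e => LNR_cl E e = q).powerset.erase ∅, (-1 : ℤ) ^ T.card
          = -1 := by
      intro q hq
      obtain ⟨e, _, he⟩ := Finset.mem_image.1 hq
      have h4 : (Finset.univ.filter fun e => LNR_cl E e = q) ≠ ∅ := by
        intro h
        have : e ∈ (Finset.univ.filter fun e => LNR_cl E e = q) := by
          rw [Finset.mem_filter]
          exact ⟨Finset.mem_univ _, he⟩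
        rw [h] at this
        simp at this
      have h5 := Finset.sum_powerset_neg_one_pow_card
        (x := (Finset.univ.filter fun e => LNR_cl E e = q))
      rw [if_neg h4] at h5
      rw [← Finset.sum_erase_add _ _ (Finset.empty_mem_powerset _), Finset.card_empty, pow_zero] at h5
      linarith
    rw [Finset.sum_congr rfl h3]
    simp
  · intro q _ q' _ hne
    rw [Function.onFun, Finset.disjoint_left]
    intro T hT hT'
    rw [Finset.mem_erase, Finset.mem_powerset] at hT hT'
    obtain ⟨e, he⟩ := Finset.nonempty_iff_ne_empty.2 hT.1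
    have h3 := hT.2 he
    have h4 := hT'.2 he
    rw [Finset.mem_filter] at h3 h4
    exact hne (h3.2.symm.trans h4.2)

open Classical in
/-- the general form -/
theorem LNR_gen {N : ℕ} {r r' : Finset (Fin N) → ℕ} (hr : RkF r) (hr' : RkF r')
    (h1 : ∀ e, r {e} = 1) (h1' : ∀ e, r' {e} = 1) {E : Fin N → Fin N → Prop} (hE : Equivalence E)
    (hEr : ∀ e e', E e e' → r {e, e'} ≤ 1) (hEr' : ∀ e e', E e e' → r' {e, e'} ≤ 1)
    (S : Finset (Fin N)) :
    (∑ T ∈ Finset.univ.filter (fun T : Finset (Fin N) => T.Nonempty ∧ ∀ e ∈ T, ∀ e' ∈ T, E e e'),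
      (-1 : ℤ) ^ T.card) + r S + r' Finset.univ ≤ r' S := by
  have hA := LNR_A hE hr h1 hEr ∅ S
  have hB := LNR_A hE hr' h1' hEr' S Finset.univ
  rw [Finset.empty_union, hr.emp, Finset.image_empty, Finset.card_empty] at hA
  rw [Finset.union_eq_right.2 (Finset.subset_univ S)] at hB
  rw [LNR_C hE]
  have hA' : (r S : ℤ) ≤ ((S.image (LNR_cl E)).card : ℤ) := by exact_mod_cast (by omega)
  have hB' : (r' Finset.univ : ℤ) + ((S.image (LNR_cl E)).card : ℤ) ≤
      r' S + (((Finset.univ : Finset (Fin N)).image (LNR_cl E)).card : ℤ) := by exact_mod_cast hB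
  linarith

theorem thm_LNR : St_LNR := fun _ _ _ hr hr' h1 h1' hp _ hE hEr S =>
  LNR_gen hr hr' h1 h1' hE (fun e e' h => (hEr e e' h).le)
    (fun e e' h => (hp e e').trans (hEr e e' h).le) S

end Pool.TMW
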