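import Pool.Agent.TMW.Defs

/-!
# TMW: statements, part A (expansion, circles, shifted words)

Every statement has its complete proof in the docstring. The theorems of `TWC` may be used (`TWC/All.lean` has `p1 : St_P1`, `prr : St_PR`,
`ftp`, `eqn`, `mht`, `par`, `thm_EMB`, `thm_CMD`, `thm_TR3`, ...). `runC M (u ++ v) x = runC M v (runC M u x)` and
`jo B (u ++ v) = jo B u ++ jo (fun k => B (k + nX u)) v` (inductions on `u`), `jo B y = y` for `NoX y`; `Ok u n m → Ok (jo B u) n m ∧ NoX (jo B u)` (see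
`ALT.thm_JO`, `TWC/CIR.lean`); `Ok (sh a y) N N` for `Ok y w w`, `a + w ≤ N`.
-/

set_option autoImplicit false

namespace Pool.TMW

open LaurentPolynomial Pool.Agent.ARB Pool.Agent.Helper2 Pool.ALT Pool.TWC

/-! ### circles -/

/-- [CN1] closed planar words are circles.
PROOF (from P1). Existence: strong induction on the length of `W`. `[]`: `c = 0`. Otherwise `Ok W 0 0` and `NoX W` give `W = pU 0 :: W₁`, `Ok W₁ 2 0`; P1 (`n = 0`):
`runC M W₁ y = δ ^ e • runC M v' (cap_j y)`, `j ≤ 0`, `v'` shorter, `NoX v'`, `Ok v' 0 0`; `y = cup_0 init`, `rel1`: `cap_0 (cup_0 init) = δ • init`, `runC` is linear. Uniqueness: the height model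
(`TWC.thm_HMD`, `HM`: `δ = 2`, `init = fun _ => 1`, over `ℤ`): `2 ^ c = 2 ^ c'`. -/
def St_CN1 : Prop := ∀ W : Word, NoX W → Ok W 0 0 → Ci W (cn W) ∧ ∀ c, Ci W c → c = cn W

/-- [XPD] PROOF. Induction on `y` for all `x`, as `exp_word` in `TWC/EXP.lean` (where the weight is `τ (N - 2 |S|)`; here the weights are added by `wt`). For `pX i p`: `crossOp M (i + a) p x =
T c • x + T (-c) • cup (cap x)`, and `jo` with the Boolean `b` is cap and cup iff `b = decide (i % 2 = 0)`; the sets `C` are `C' + 1` (Boolean `false` at `0`) and `insert 0 (C' + 1)` (Boolean `true`); one of them is cap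
and cup, weight `T (-c)`, the other one the identity, weight `T c`. -/
def St_XPD : Prop := ∀ (V : Type) [AddCommGroup V] [Module LP V] (M : Model LP V) (y : Word) (a : ℕ) (x : V),
  runW M (sh a y) x = ∑ C : Finset (Fin (nX y)), (T (wt (st true C) y) : LP) •
    runC M (sh a (jo (st true C) y)) x

/-- [MXP] PROOF (from XPD). Induction on `g`: `List.ofFn_succ`, `List.flatten_cons`, `runW` and `runC` of an append; `T` of a sum; `Fin.sum_univ_succ`, `Fin.prod_univ_succ`; the sum over the functions `C` on `Fin (g + 1)` is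
the sum over `C 0` and the rest (`Fin.consEquiv` or `Fin.insertNthEquiv`, `Fintype.sum_equiv`, `Fintype.sum_prod_type`). -/
def St_MXP : Prop := ∀ (V : Type) [AddCommGroup V] [Module LP V] (M : Model LP V) (g : ℕ)
  (a w : Fin g → ℕ) (k : Fin g → ℤ) (x : V),
  (T (3 * ∑ i, k i * (w i : ℤ)) : LP) • runW M (Yw a fun i => FT (w i) (k i)) x =
    ∑ C : (i : Fin g) → Finset (Fin (nX (FT (w i) (k i)))), (∏ i, xw (w i) (k i) (C i)) •
      runC M (Yw a fun i => yw (w i) (k i) (C i)) x

/-- [VLM] the state sum.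
PROOF (from EXP, MXP, CN1, TMD). As `TWC/FOR.lean`: `M` from [TMD], `runW M (forget K) init = (loopVal * bracket K) • init` (`ARB` `St_BrRun`); [EXP] with `P = runW M (Yw a FT)` (linear); each term by [MXP] and [CN1]:
`runC M (jo B u ++ Yw a y ++ jo B' v) init = loopVal ^ cn • init` (`δ = loopVal`; the word is closed and `NoX`: `Ok (Yw a y) n n` by `AOk`, induction on `g`); compare the values at `[]` (`init [] = 1`). -/
def St_VLM : Prop := ∀ (g : ℕ) (u v : Word) (n : ℕ) (a w : Fin g → ℕ) (k : Fin g → ℤ)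
  (K : List Slice) (r e : Bool) (τ : ℤ), Ok u 0 n → Ok v n 0 → AOk n a w → IsDiagram K → K ≠ [] →
  forget K = u ++ Yw a (fun i => FT (w i) (k i)) ++ v →
  (∀ (p : Bool) (i : ℕ), pX i p ∈ u ++ v → (p = e ↔ i % 2 = 0)) → τ = (if r = e then 1 else -1) →
  T (3 * ∑ i, k i * (w i : ℤ)) * (loopVal * bracket K) = ∑ S : Finset (Fin (nX (u ++ v))),
    T (τ * ((nX (u ++ v) : ℤ) - 2 * S.card)) * Va (st r S) u v a w k

/-! ### shifted words -/

/-- [SHX] the local regions of `y` in `sh a y`. `N = a + w + b` strands: `a` on the left and `b` on the right of `y`.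
PROOF. Induction on `y`. `κ` maps the gap `j` at each height to the gap `a + j`. Every other gap is in one of the columns on the left (gap `j < a` at each height, it touches the gap `j` at the next height) or on the right
(gap `a + m + j`, `0 < j ≤ b`, where `m` is the number of strands of `y` at this height; it touches the gap `a + m' + j` at the next height, `m' = m - inn + out`). `gl ⟨k, i + a⟩ (a + j) (a + j')` iff `gl ⟨k, i⟩ j j'` for `j ≤ m`, `j' ≤ m'`.
(11) extension: `F` at the gap `j < a` of each height is `c j`, at the gap `a + m + j`, `0 < j ≤ b`, it is `c (a + w + j)`, on the image of `κ` it is `h` (the lowest row agrees with `c` by hypothesis); touching pairs: in the column of the gap `a` itself and of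
`a + m` by the invariance of `h` (they are in the image of `κ`). For the recursion write `N` as a variable with `N = a + w + b`; `N - inn + out = a + (w - inn + out) + b` because `inn ≤ w`. -/
def St_SHX : Prop := ∀ (y : Word) (w w' a b N : ℕ), Ok y w w' → N = a + w + b →
  ∃ κ : Loc w y → Loc N (sh a y),
    (∀ j ≤ w, κ (bo w y j) = bo N (sh a y) (a + j)) ∧
    (∀ j ≤ w', κ (tp w y j) = tp N (sh a y) (a + j)) ∧
    (∀ x x', R0 w y x x' → R0 N (sh a y) (κ x) (κ x')) ∧
    (∀ x, pa N (sh a y) (κ x) = fl a (pa w y x)) ∧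
    (∀ (ρ : Bool) (k : ℕ) (h : k < nX y) (h' : k < nX (sh a y)),
      κ (ed ρ w y ⟨k, h⟩).1 = (ed (fl a ρ) N (sh a y) ⟨k, h'⟩).1 ∧
      κ (ed ρ w y ⟨k, h⟩).2 = (ed (fl a ρ) N (sh a y) ⟨k, h'⟩).2) ∧
    (∀ x x', Rt w y x x' → Rt N (sh a y) (κ x) (κ x')) ∧
    (∀ X X', Rt N (sh a y) X X' → (∃ x x', Rt w y x x' ∧ X = κ x ∧ X' = κ x') ∨
      ∃ j < N, (j < a ∨ a + w ≤ j) ∧ gs N (sh a y) X (bo N (sh a y) j) ∧
        gs N (sh a y) X' (bo N (sh a y) (j + 1))) ∧
    (∀ j ≤ a, gs N (sh a y) (bo N (sh a y) j) (tp N (sh a y) j)) ∧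
    (∀ j ≤ b, gs N (sh a y) (bo N (sh a y) (a + w + j)) (tp N (sh a y) (a + w' + j))) ∧
    (∀ X, (∃ x, X = κ x) ∨ ∃ j ≤ N, (j < a ∨ a + w < j) ∧ gs N (sh a y) X (bo N (sh a y) j)) ∧
    ∀ (α : Type) (h : Loc w y → α) (c : ℕ → α), (∀ x x', R0 w y x x' → h x = h x') →
      (∀ j ≤ w, c (a + j) = h (bo w y j)) → ∃ F : Loc N (sh a y) → α,
        (∀ X X', R0 N (sh a y) X X' → F X = F X') ∧ (∀ x, F (κ x) = h x) ∧
        ∀ j ≤ N, F (bo N (sh a y) j) = c j

/-- [EMR] neighbours in `u ++ v`.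
PROOF. Induction on `u`. `u = []`: `iv` is the identity, `iu n [] v (bo n [] j) = bo n v j` for `j ≤ n`, and the lowest row of `v` consists of neighbours (`Rt n v (bo n v j) (bo n v (j + 1))` for `j < n`, both for `v = []` and for
`v = s :: v'`). `u = s :: u'`: the lowest row, or `Sum.inr` of the statement for `u'`. -/
def St_EMR : Prop := ∀ (u v : Word) (n : ℕ),
  (∀ x y, Rt n u x y → Rt n (u ++ v) (iu n u v x) (iu n u v y)) ∧
  (∀ x y, Rt (wd n u) v x y → Rt n (u ++ v) (iv n u v x) (iv n u v y)) ∧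
  ∀ X Y, Rt n (u ++ v) X Y →
    (∃ x y, Rt n u x y ∧ X = iu n u v x ∧ Y = iu n u v y) ∨
    ∃ x y, Rt (wd n u) v x y ∧ X = iv n u v x ∧ Y = iv n u v y

/-! ### circles and colourings -/

/-- the colourings of the regions of parity `ρ` of the state `B` -/
def Czj (ρ : Bool) (B : ℕ → Bool) (n : ℕ) (w : Word) : Submodule (ZMod 3) (Loc n w → ZMod 3) where
  carrier := {f | Cz ρ B n w f}
  add_mem' := by
    rintro p q ⟨a1, a2, a3⟩ ⟨b1, b2, b3⟩
    refine ⟨fun x hx => ?_, fun x y h => ?_, fun k hk => ?_⟩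
    · show p x + q x = 0
      rw [a1 x hx, b1 x hx, add_zero]
    · show p x + q x = p y + q y
      rw [a2 x y h, b2 x y h]
    · show p _ + q _ = p _ + q _
      rw [a3 k hk, b3 k hk]
  zero_mem' := ⟨fun _ _ => rfl, fun _ _ _ => rfl, fun _ _ => rfl⟩
  smul_mem' := by
    rintro c p ⟨a1, a2, a3⟩
    refine ⟨fun x hx => ?_, fun x y h => ?_, fun k hk => ?_⟩
    · show c * p x = 0
      rw [a1 x hx, mul_zero]
    · show c * p x = c * p y
      rw [a2 x y h]
    · show c * p _ = c * p _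
      rw [a3 k hk]

/-- [TRC] PROOF (from CN1, CMD, TR3). Let `M` be the colour model `CM ρ`. `jo B D` is closed and `NoX`: [CN1] at the row `0`: `√3 ^ cn (jo B D)` (`δ = √3`, `init = 1`). [TR3] with `ψ = 1`, `d = 0`, `n = m = 0`: `√3 ^ gam ρ B D` times
the number of the `f` in `Czj` with `f (tp 0) = 0` if `ρ = true`. For `ρ = false` this is the whole space: `3 ^ finrank = √3 ^ (2 finrank)`. For `ρ = true` it is the kernel of the functional `f ↦ f (tp 0)`, which is `1` at the colouring `1` on parity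
`true`, `0` on parity `false` (`pa_R0`, `pa_ed`, `pa_tp`): `3 ^ (finrank - 1)`. Compare the exponents of `√3` (`zpow_right_injective₀`). -/
def St_TRC : Prop := ∀ (ρ : Bool) (B : ℕ → Bool) (D : Word), Ok D 0 0 →
  (cn (jo B D) : ℤ) = gam ρ B D - (if ρ = true then 2 else 0) +
    2 * (Module.finrank (ZMod 3) (Czj ρ B 0 D) : ℤ)

/-- [ABS] a planar word at the first arc becomes a part of the lower word.
PROOF (from SHX, EMB). `n = a + w + b`, `u' = u ++ sh a y`, `wd 0 u' = n = wd 0 u`, `nX u' = nX u`. Let `(f', g)` be in the first space; `f = f' ∘ iu`, `h = f' ∘ iv ∘ κ` ([EMB], [SHX]). By [EMB] (1) `f (tp j) = f' (md j) = (f' ∘ iv) (bo j)`, `f' (tp 0 u' j) = (f' ∘ iv) (tp j)`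
(induction on `u`). So `f (tp (a + j)) = h (bo j)`, `f' (tp (a + j)) = h (tp j)` for `j ≤ w`, and `f' (tp j) = f (tp j)` for `j ≤ a` and for `a + w ≤ j ≤ n` ([SHX] (8), (9)). `h ∈ Czs (fl a ρ) w y` ([SHX] (3), (4)). Consider `Θ (f', g) = (f, g)`. It is in the
second space: rows at `j` which are not strictly inside of an arc: `f (tp j) = f' (tp j) = g (bo j)`; at the first arc `res = rows h`; at the other arcs (`a + w ≤ a' i`) `res` is unchanged; joins by [EMB] (6) (the crossings of `u'` are those of `u`). Surjective: `(f, g)`, `rows h = res (f, g)`: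
[SHX] (11) with `c j = f (tp j)` and [EMB] (7) give `f'`, with parity `ρ` by [SHX] (10), (4). Kernel: `f = 0`, `g = 0`: `f' ∘ iv` is determined by `h` and the lowest row, which is zero; `h` is any element of `Czs` with `rows h = 0` (`f' (tp j) = g (bo j) = 0` outside is automatic). So the kernel has the
dimension `krn`. Rank-nullity. -/
def St_ABS : Prop := ∀ (ρ : Bool) (B : ℕ → Bool) (u v y : Word) (n a w g : ℕ) (a' w' : Fin g → ℕ)
  (X : (i : Fin g) → Submodule (ZMod 3) (Rw (w' i) × Rw (w' i))), Ok u 0 n → Ok v n 0 → NoX y →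
  Ok y w w → AOk n (Fin.cons a a' : Fin (g + 1) → ℕ) (Fin.cons w w' : Fin (g + 1) → ℕ) →
  Module.finrank (ZMod 3) (Out ρ B (u ++ sh a y) v a' w' ⊓
      ⨅ i, (X i).comap (res (u ++ sh a y) v (a' i) (w' i)) : Submodule (ZMod 3) (Lv (u ++ sh a y) v)) =
    krn (fl a ρ) w y + Module.finrank (ZMod 3)
      (Out ρ B u v (Fin.cons a a' : Fin (g + 1) → ℕ) (Fin.cons w w' : Fin (g + 1) → ℕ) ⊓
        (Rel (fl a ρ) w y).comap (res u v a w) ⊓ ⨅ i, (X i).comap (res u v (a' i) (w' i)) :
        Submodule (ZMod 3) (Lv u v))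

/-- [TRM] the number of circles with planar words at the arcs.
PROOF (from TRC, ABS, EMB). The word is `jo B D`, `D = u ++ Yw a y ++ v` (no crossings in `Yw a y`). [TRC]: `gam ρ B D = gam ρ B (u ++ v) + ∑ gam (fl (a i) ρ) (fun _ => ρ) (y i)` (`gam` of an append: induction; `gam ρ B (sh a y) = gam (fl a ρ) B y`, and `gam` of a `NoX` word does not depend
on `B`). So it remains: `finrank (Czj ρ B 0 D) = ∑ krn + finrank (Out ⊓ ⨅ comap Rel)`. Induction on `g` for all `u`. `g = 0`: `D = u ++ v`, the map `F ↦ (F ∘ iu, F ∘ iv)` is a linear bijection from `Czj ρ B 0 (u ++ v)` to `Out` (no arcs; [EMB] (1), (3)-(7)).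
`g + 1`: `a = Fin.cons (a 0) (fun i => a i.succ)`, `D = (u ++ sh (a 0) (y 0)) ++ Yw .. ++ v`, the induction hypothesis for `u ++ sh (a 0) (y 0)`, and [ABS] with `X i = Rel`. -/
def St_TRM : Prop := ∀ (ρ : Bool) (B : ℕ → Bool) (u v : Word) (n g : ℕ) (a w : Fin g → ℕ)
  (y : Fin g → Word), Ok u 0 n → Ok v n 0 → AOk n a w → (∀ i, NoX (y i) ∧ Ok (y i) (w i) (w i)) →
  (cn (jo B u ++ Yw a y ++ jo (fun k => B (k + nX u)) v) : ℤ) = bas ρ B u v +
    ∑ i, gk (fl (a i) ρ) (w i) (y i) + 2 * (Module.finrank (ZMod 3) (Out ρ B u v a w ⊓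
      ⨅ i, (Rel (fl (a i) ρ) (w i) (y i)).comap (res u v (a i) (w i)) :
      Submodule (ZMod 3) (Lv u v)) : ℤ)

end Pool.TMW
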